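import Pool.Agent.H24.PN.Stmts

/-! Coordinates of the standard Gaussian measure on a finite product. -/

set_option autoImplicit false

namespace PN.H65
open MeasureTheory ProbabilityTheory

/-- resampling one coordinate preserves the measure -/
lemma mp_update {κ : Type} [Fintype κ] [DecidableEq κ] (k : κ) :
    MeasurePreserving (fun p : (κ → ℝ) × ℝ => Function.update p.1 k p.2)
      ((Ga κ).prod (gaussianReal 0 1)) (Ga κ) := by
  refine ⟨measurable_update', ?_⟩
  symm
  refine Measure.pi_eq ?_
  intro s hs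
  rw [Measure.map_apply measurable_update' (MeasurableSet.univ_pi hs)]
  have hset : (fun p : (κ → ℝ) × ℝ => Function.update p.1 k p.2) ⁻¹' (Set.pi Set.univ s) =
      (Set.pi Set.univ (Function.update s k Set.univ)) ×ˢ (s k) := by
    ext p
    simp only [Set.mem_preimage, Set.mem_pi, Set.mem_univ, true_implies, Set.mem_prod]
    constructor
    · intro h
      refine ⟨?_, ?_⟩
      · intro i
        by_cases hi : i = k
        · subst hi
          simp
        · have := h i
          rw [Function.update_of_ne hi] at this ⊢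
          exact this
      · have := h k
        rwa [Function.update_self] at this
    · rintro ⟨h1, h2⟩ i
      by_cases hi : i = k
      · subst hi
        rwa [Function.update_self]
      · have := h1 i
        rw [Function.update_of_ne hi] at this ⊢
        exact this
  rw [hset, Measure.prod_prod, Ga, Measure.pi_pi]
  have h2 : (fun i => (gaussianReal 0 1) (Function.update s k Set.univ i)) =
      Function.update (fun i => (gaussianReal 0 1) (s i)) k 1 := by
    funext i
    by_cases hi : i = k
    · subst hi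
      simp
    · rw [Function.update_of_ne hi, Function.update_of_ne hi]
  rw [h2, Finset.prod_update_of_mem (Finset.mem_univ k), one_mul, mul_comm,
    ← Finset.prod_erase_mul Finset.univ _ (Finset.mem_univ k), Finset.sdiff_singleton_eq_erase,
    mul_comm]

lemma integral_update {κ : Type} [Fintype κ] [DecidableEq κ] (k : κ) (F : (κ → ℝ) → ℝ)
    (hF : Integrable F (Ga κ)) :
    ∫ g, F g ∂Ga κ = ∫ g, (∫ s, F (Function.update g k s) ∂gaussianReal 0 1) ∂Ga κ := by
  have hmp := mp_update k
  have h1 : Integrable (fun p : (κ → ℝ) × ℝ => F (Function.update p.1 k p.2))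
      ((Ga κ).prod (gaussianReal 0 1)) := hmp.integrable_comp_of_integrable hF
  have h2 : ∫ g, F g ∂Ga κ = ∫ g, F g ∂(Measure.map
      (fun p : (κ → ℝ) × ℝ => Function.update p.1 k p.2)
      ((Ga κ).prod (gaussianReal 0 1))) := by rw [hmp.map_eq]
  rw [h2, integral_map hmp.measurable.aemeasurable
    (by rw [hmp.map_eq]; exact hF.aestronglyMeasurable), integral_prod _ h1]

lemma mp_eval {κ : Type} [Fintype κ] (k : κ) :
    MeasurePreserving (fun g : κ → ℝ => g k) (Ga κ) (gaussianReal 0 1) := by
  have := measurePreserving_eval (fun _ : κ => gaussianReal 0 1) k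
  exact this

lemma integrable_id : Integrable (fun x : ℝ => x) (gaussianReal 0 1) :=
  (memLp_id_gaussianReal 1).integrable le_rfl

lemma integrable_sq : Integrable (fun x : ℝ => x ^ 2) (gaussianReal 0 1) := by
  have := (memLp_id_gaussianReal (μ := 0) (v := 1) 2)
  exact this.integrable_sq

lemma integral_id' : ∫ x : ℝ, x ∂gaussianReal 0 1 = 0 := integral_id_gaussianReal

lemma integral_sq : ∫ x : ℝ, x ^ 2 ∂gaussianReal 0 1 = 1 := by
  have h := variance_id_gaussianReal (μ := 0) (v := 1)
  rw [variance_eq_integral measurable_id.aemeasurable] at h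
  simp only [id_eq] at h
  rw [integral_id'] at h
  simpa using h

lemma memLp_coord {κ : Type} [Fintype κ] (k : κ) : MemLp (fun g : κ → ℝ => g k) 2 (Ga κ) := by
  have h := (memLp_id_gaussianReal (μ := 0) (v := 1) 2)
  have := h.comp_measurePreserving (mp_eval k)
  exact this

lemma memLp_ps {n : ℕ} (j : ℕ) : MemLp (fun g : Fin n → ℝ => ps g j) 2 (Ga (Fin n)) := by
  unfold ps
  refine memLp_finsetSum _ ?_
  intro i _
  by_cases h : (i : ℕ) < j
  · simpa [h] using memLp_coord i
  · simp [h]

lemma measurable_ps {n : ℕ} (j : ℕ) : Measurable (fun g : Fin n → ℝ => ps g j) := by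
  unfold ps
  refine Finset.measurable_sum _ ?_
  intro i _
  by_cases h : (i : ℕ) < j
  · simpa [h] using measurable_pi_apply i
  · simp [h]

lemma ps_zero {n : ℕ} (g : Fin n → ℝ) : ps g 0 = 0 := by
  simp [ps]

lemma ps_update_le {n : ℕ} (g : Fin n → ℝ) (m : ℕ) (hm : m < n) (s : ℝ) (j : ℕ) (hj : j ≤ m) :
    ps (Function.update g ⟨m, hm⟩ s) j = ps g j := by
  unfold ps
  refine Finset.sum_congr rfl ?_
  intro i _
  by_cases h : (i : ℕ) < j
  · have hi : i ≠ ⟨m, hm⟩ := by
      rintro rfl
      simp at h
      omega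
    rw [if_pos h, if_pos h, Function.update_of_ne hi]
  · rw [if_neg h, if_neg h]

lemma ps_succ {n : ℕ} (g : Fin n → ℝ) (m : ℕ) (hm : m < n) :
    ps g (m + 1) = ps g m + g ⟨m, hm⟩ := by
  unfold ps
  have h1 : ∀ i : Fin n, (if (i : ℕ) < m + 1 then g i else 0) =
      (if (i : ℕ) < m then g i else 0) + (if i = ⟨m, hm⟩ then g i else 0) := by
    intro i
    by_cases h : i = ⟨m, hm⟩
    · subst h
      simp
    · have h' : (i : ℕ) ≠ m := fun e => h (Fin.ext e)
      by_cases h2 : (i : ℕ) < m
      · rw [if_pos (by omega), if_pos h2, if_neg h, add_zero]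
      · rw [if_neg (by omega), if_neg h2, if_neg h, add_zero]
  rw [Finset.sum_congr rfl (fun i _ => h1 i), Finset.sum_add_distrib]
  simp

lemma ps_update_succ {n : ℕ} (g : Fin n → ℝ) (m : ℕ) (hm : m < n) (s : ℝ) :
    ps (Function.update g ⟨m, hm⟩ s) (m + 1) = ps g m + s := by
  rw [ps_succ _ m hm, ps_update_le g m hm s m le_rfl, Function.update_self]

lemma measurableSet_St (n m : ℕ) (x : ℝ) (b : ℕ → ℝ) : MeasurableSet (St n m x b) := by
  have : St n m x b = ⋂ j : ℕ, ⋂ (_ : 1 ≤ j), ⋂ (_ : j ≤ m), {g : Fin n → ℝ | ps g j ≤ x + b j} := by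
    ext g
    simp [St]
  rw [this]
  refine MeasurableSet.iInter fun j => MeasurableSet.iInter fun _ => MeasurableSet.iInter fun _ => ?_
  exact measurableSet_le (measurable_ps j) measurable_const

lemma mem_St_update {n : ℕ} (g : Fin n → ℝ) (m : ℕ) (hm : m < n) (s : ℝ) (x : ℝ) (b : ℕ → ℝ) :
    Function.update g ⟨m, hm⟩ s ∈ St n m x b ↔ g ∈ St n m x b := by
  constructor
  · intro h j h1 h2
    have := h j h1 h2
    rwa [ps_update_le g m hm s j h2] at this
  · intro h j h1 h2
    rw [ps_update_le g m hm s j h2]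
    exact h j h1 h2

lemma mem_St_succ {n : ℕ} (g : Fin n → ℝ) (m : ℕ) (x : ℝ) (b : ℕ → ℝ) :
    g ∈ St n (m + 1) x b ↔ g ∈ St n m x b ∧ ps g (m + 1) ≤ x + b (m + 1) := by
  constructor
  · intro h
    exact ⟨fun j h1 h2 => h j h1 (by omega), h (m + 1) (by omega) le_rfl⟩
  · rintro ⟨h1, h2⟩ j h3 h4
    rcases Nat.lt_or_ge j (m + 1) with h | h
    · exact h1 j h3 (by omega)
    · have : j = m + 1 := by omega
      subst this
      exact h2

/-- expectation of a function of the path up to time `m` and of the next step -/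
lemma step {n : ℕ} (m : ℕ) (hm : m < n) (x : ℝ) (b : ℕ → ℝ) (φ : ℝ → ℝ → ℝ)
    (hφ : Integrable (fun g : Fin n → ℝ => Set.indicator (St n m x b)
      (fun g => φ (ps g m) (g ⟨m, hm⟩)) g) (Ga (Fin n))) :
    ∫ g : Fin n → ℝ, Set.indicator (St n m x b) (fun g => φ (ps g m) (g ⟨m, hm⟩)) g
      ∂Ga (Fin n) =
    ∫ g : Fin n → ℝ, Set.indicator (St n m x b)
      (fun g => ∫ s, φ (ps g m) s ∂gaussianReal 0 1) g ∂Ga (Fin n) := by
  rw [integral_update ⟨m, hm⟩ _ hφ]
  refine integral_congr_ae (Filter.Eventually.of_forall ?_)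
  intro g
  simp only
  by_cases hg : g ∈ St n m x b
  · rw [Set.indicator_of_mem hg]
    refine integral_congr_ae (Filter.Eventually.of_forall ?_)
    intro s
    simp only
    rw [Set.indicator_of_mem ((mem_St_update g m hm s x b).mpr hg),
      ps_update_le g m hm s m le_rfl, Function.update_self]
  · rw [Set.indicator_of_notMem hg]
    have : ∀ s, Set.indicator (St n m x b) (fun g => φ (ps g m) (g ⟨m, hm⟩))
        (Function.update g ⟨m, hm⟩ s) = 0 := by
      intro s
      exact Set.indicator_of_notMem (fun h => hg ((mem_St_update g m hm s x b).mp h)) _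
    simp [this]

end PN.H65
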